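import Mathlib

/-!
# A sublacunary interpolation set for distal sequences

We show that the set of squares is an interpolation set for distal sequences.  Since the squares form
a sublacunary set, this disproves the statement that no sublacunary set is an interpolation set for
distal sequences.

The distal systems used are torus extensions `(z, a, b) ↦ (z + 1, a + φ₁ z, b + φ₂ z)` of the 2-adic
odometer, with continuous real cocycles `φᵢ` built block by block.
-/

namespace Pool.Agent.Results.MP_924486_an.DistalSquares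

open Filter Topology

/-- A map `T` on a metric space is distal if `inf_{n ≥ 1} d(T^n x, T^n y) > 0` for all distinct
points `x, y`. -/
def IsDistal {X : Type} [MetricSpace X] (T : X → X) : Prop :=
  ∀ x y : X, x ≠ y → 0 < ⨅ n : ℕ+, dist (T^[(n : ℕ)] x) (T^[(n : ℕ)] y)

/-- A distal sequence: `ψ n = F (T^n x)` for `n ≥ 1`, where `X` is a compact metric space,
`T : X → X` is continuous and distal, `x : X` and `F : X → ℂ` is continuous. -/
def IsDistalSeq (ψ : ℕ+ → ℂ) : Prop :=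
  ∃ (X : Type) (_ : MetricSpace X) (_ : CompactSpace X) (T : X → X) (x : X) (F : X → ℂ),
    Continuous T ∧ IsDistal T ∧ Continuous F ∧ ∀ n : ℕ+, ψ n = F (T^[(n : ℕ)] x)

/-- `E` is an interpolation set for distal sequences: every bounded `f : E → ℂ` is the restriction
to `E` of a distal sequence. -/
def IsDistalInterpolationSet (E : Set ℕ+) : Prop :=
  ∀ f : E → ℂ, (∃ C : ℝ, ∀ n : E, ‖f n‖ ≤ C) →
    ∃ ψ : ℕ+ → ℂ, IsDistalSeq ψ ∧ ∀ n : E, ψ n = f n

/-- `E = {r 0 < r 1 < ...}` is an infinite set with `log (r n) / (n + 1) → 0`. -/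
def IsSublacunary (E : Set ℕ+) : Prop :=
  ∃ r : ℕ → ℕ+, StrictMono r ∧ Set.range r = E ∧
    Tendsto (fun n : ℕ => Real.log ((r n : ℕ) : ℝ) / ((n : ℝ) + 1)) atTop (𝓝 0)

/-! ### The cocycle -/

/-- The correction of level `k`. -/
noncomputable def corr (d : ℕ → ℝ) (k : ℕ) (Q : ℕ → ℝ) (j : ℕ) : ℝ :=
  if 4 ^ k ≤ j then
    Int.fract (d (Nat.sqrt j) -
      ∑ i ∈ Finset.Ico ((Nat.sqrt j) ^ 2) ((Nat.sqrt j + 1) ^ 2), Q i) / (2 * (Nat.sqrt j : ℝ) + 1)
  else 0

/-- The partial cocycles. -/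
noncomputable def P (d : ℕ → ℝ) (θ : ℝ) : ℕ → ℕ → ℝ
  | 0 => fun _ => θ
  | k + 1 => fun j => P d θ k j + corr d k (P d θ k) (j % 4 ^ (k + 1))

lemma corr_abs_le (d : ℕ → ℝ) (k : ℕ) (Q : ℕ → ℝ) (j : ℕ) :
    ‖corr d k Q j‖ ≤ (1 / 2 : ℝ) ^ k := by
  unfold corr
  split_ifs with h
  · have hs : 2 ^ k ≤ Nat.sqrt j := by
      rw [Nat.le_sqrt']
      calc (2 ^ k) ^ 2 = 4 ^ k := by rw [← pow_mul, mul_comm, pow_mul]; norm_num
        _ ≤ j := h
    have hs' : (2 : ℝ) ^ k ≤ (Nat.sqrt j : ℝ) := by exact_mod_cast hs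
    have h2 : (0 : ℝ) < 2 ^ k := by positivity
    rw [Real.norm_eq_abs, abs_div, abs_of_nonneg (Int.fract_nonneg _),
      abs_of_pos (by positivity : (0 : ℝ) < 2 * (Nat.sqrt j : ℝ) + 1)]
    rw [div_le_iff₀ (by positivity), one_div, inv_pow]
    have hf := (Int.fract_lt_one (d (Nat.sqrt j) -
      ∑ i ∈ Finset.Ico ((Nat.sqrt j) ^ 2) ((Nat.sqrt j + 1) ^ 2), Q i)).le
    refine hf.trans ?_
    rw [← div_eq_inv_mul, le_div_iff₀ h2]
    nlinarith
  · simp

lemma P_eq (d : ℕ → ℝ) (θ : ℝ) (K j : ℕ) :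
    P d θ K j = θ + ∑ k ∈ Finset.range K, corr d k (P d θ k) (j % 4 ^ (k + 1)) := by
  induction K with
  | zero => simp [P]
  | succ K ih => rw [Finset.sum_range_succ, ← add_assoc, ← ih]; rfl

/-- The cocycle on the 2-adic integers. -/
noncomputable def phi (d : ℕ → ℝ) (θ : ℝ) (z : ℤ_[2]) : ℝ :=
  θ + ∑' k : ℕ, corr d k (P d θ k) ((PadicInt.toZModPow (p := 2) (2 * (k + 1)) z).val)

lemma continuous_toZModPow_comp {α : Type*} [TopologicalSpace α] (n : ℕ) (g : ZMod (2 ^ n) → α) :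
    Continuous (fun z : ℤ_[2] => g (PadicInt.toZModPow (p := 2) n z)) := by
  have : IsLocallyConstant (fun z : ℤ_[2] => g (PadicInt.toZModPow (p := 2) n z)) := by
    rw [IsLocallyConstant.iff_eventually_eq]
    intro z
    have hpos : (0 : ℝ) < (2 : ℝ) ^ (-(n : ℤ)) := by positivity
    filter_upwards [Metric.ball_mem_nhds z hpos] with y hy
    have h1 : ‖y - z‖ ≤ ((2 : ℕ) : ℝ) ^ (-(n : ℤ)) := by
      rw [Metric.mem_ball, dist_eq_norm] at hy
      exact_mod_cast hy.le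
    rw [PadicInt.norm_le_pow_iff_mem_span_pow, ← PadicInt.ker_toZModPow, RingHom.mem_ker,
      map_sub, sub_eq_zero] at h1
    rw [h1]
  exact this.continuous

lemma continuous_phi (d : ℕ → ℝ) (θ : ℝ) : Continuous (phi d θ) := by
  unfold phi
  refine continuous_const.add ?_
  refine continuous_tsum (u := fun k => (1 / 2 : ℝ) ^ k) ?_ ?_ ?_
  · intro k
    exact continuous_toZModPow_comp (2 * (k + 1))
      (fun x => corr d k (P d θ k) x.val)
  · exact summable_geometric_of_lt_one (by norm_num) (by norm_num)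
  · intro k z
    exact corr_abs_le _ _ _ _

lemma phi_natCast (d : ℕ → ℝ) (θ : ℝ) (K j : ℕ) (hj : j < 4 ^ K) :
    phi d θ (j : ℤ_[2]) = P d θ K j := by
  unfold phi
  rw [P_eq]
  congr 1
  have hval : ∀ k : ℕ, ((PadicInt.toZModPow (p := 2) (2 * (k + 1)) (j : ℤ_[2])).val)
      = j % 4 ^ (k + 1) := by
    intro k
    rw [map_natCast, ZMod.val_natCast, pow_mul]
    norm_num
  simp_rw [hval]
  apply tsum_eq_sum
  intro k hk
  rw [Finset.mem_range, not_lt] at hk
  have h1 : j < 4 ^ k := hj.trans_le (Nat.pow_le_pow_right (by norm_num) hk)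
  have h2 : j < 4 ^ (k + 1) := h1.trans_le (Nat.pow_le_pow_right (by norm_num) (Nat.le_succ k))
  rw [Nat.mod_eq_of_lt h2]
  unfold corr
  rw [if_neg (by omega)]

/-- On the block `[n², (n+1)²)` the cocycle sums to `d n` modulo `1`. -/
lemma block_sum (d : ℕ → ℝ) (θ : ℝ) (n : ℕ) (hn : 1 ≤ n) :
    ∃ m : ℤ, ∑ j ∈ Finset.Ico (n ^ 2) ((n + 1) ^ 2), phi d θ (j : ℤ_[2]) = d n + m := by
  set K := Nat.log 2 n with hK
  have h1 : 2 ^ K ≤ n := Nat.pow_log_le_self 2 (by omega)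
  have h2 : n < 2 ^ (K + 1) := Nat.lt_pow_succ_log_self (by norm_num) n
  have h4 : ∀ m : ℕ, (2 ^ m) ^ 2 = 4 ^ m := by
    intro m; rw [← pow_mul, mul_comm, pow_mul]; norm_num
  have hlow : 4 ^ K ≤ n ^ 2 := by rw [← h4]; exact Nat.pow_le_pow_left h1 2
  have hhigh : (n + 1) ^ 2 ≤ 4 ^ (K + 1) := by rw [← h4]; exact Nat.pow_le_pow_left h2 2
  set S : ℝ := ∑ i ∈ Finset.Ico (n ^ 2) ((n + 1) ^ 2), P d θ K i with hS
  have hterm : ∀ j ∈ Finset.Ico (n ^ 2) ((n + 1) ^ 2),
      phi d θ (j : ℤ_[2]) = P d θ K j + Int.fract (d n - S) / (2 * (n : ℝ) + 1) := by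
    intro j hj
    rw [Finset.mem_Ico] at hj
    have hjK : j < 4 ^ (K + 1) := by omega
    rw [phi_natCast d θ (K + 1) j hjK]
    have hsq : Nat.sqrt j = n := by
      symm
      rw [Nat.eq_sqrt']
      exact hj
    show P d θ K j + corr d K (P d θ K) (j % 4 ^ (K + 1)) = _
    rw [Nat.mod_eq_of_lt hjK]
    unfold corr
    rw [if_pos (by omega), hsq]
  rw [Finset.sum_congr rfl hterm, Finset.sum_add_distrib, ← hS, Finset.sum_const, Nat.card_Ico,
    nsmul_eq_mul]
  have hcard : (((n + 1) ^ 2 - n ^ 2 : ℕ) : ℝ) = 2 * (n : ℝ) + 1 := by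
    have : (n + 1) ^ 2 - n ^ 2 = 2 * n + 1 := by
      have : (n + 1) ^ 2 = n ^ 2 + (2 * n + 1) := by ring
      omega
    rw [this]; push_cast; ring
  rw [hcard, mul_div_cancel₀ _ (by positivity)]
  refine ⟨-⌊d n - S⌋, ?_⟩
  have := Int.self_sub_floor (d n - S)
  rw [← this]
  push_cast
  ring

/-- The Birkhoff sums at `n²` take prescribed values modulo `1`. -/
lemma birkhoff (Θ : ℕ → ℝ) (n : ℕ) (hn : 1 ≤ n) :
    ∃ m : ℤ, ∑ j ∈ Finset.range (n ^ 2),
      phi (fun i => Θ (i + 1) - Θ i) (Θ 1) (j : ℤ_[2]) = Θ n + m := by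
  induction n, hn using Nat.le_induction with
  | base =>
    refine ⟨0, ?_⟩
    have h := phi_natCast (fun i => Θ (i + 1) - Θ i) (Θ 1) 0 0 (by norm_num)
    rw [one_pow, Finset.sum_range_one, h]
    simp [P]
  | succ n hn ih =>
    obtain ⟨m, hm⟩ := ih
    obtain ⟨m', hm'⟩ := block_sum (fun i => Θ (i + 1) - Θ i) (Θ 1) n hn
    refine ⟨m + m', ?_⟩
    have hle : n ^ 2 ≤ (n + 1) ^ 2 := Nat.pow_le_pow_left (Nat.le_succ n) 2
    rw [← Finset.sum_range_add_sum_Ico _ hle, hm, hm']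
    push_cast
    ring

/-! ### The distal system -/

/-- The phase space: 2-adic integers times a two-dimensional torus. -/
abbrev X : Type := ℤ_[2] × UnitAddCircle × UnitAddCircle

/-- The skew product. -/
noncomputable def T (φ₁ φ₂ : ℤ_[2] → ℝ) (x : X) : X :=
  (x.1 + 1, x.2.1 + (φ₁ x.1 : UnitAddCircle), x.2.2 + (φ₂ x.1 : UnitAddCircle))

lemma continuous_T {φ₁ φ₂ : ℤ_[2] → ℝ} (h₁ : Continuous φ₁) (h₂ : Continuous φ₂) :
    Continuous (T φ₁ φ₂) := by
  have hq : Continuous (fun x : ℝ => (x : UnitAddCircle)) := AddCircle.continuous_mk' 1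
  unfold T
  refine (continuous_fst.add continuous_const).prodMk (Continuous.prodMk ?_ ?_)
  · exact (continuous_fst.comp continuous_snd).add (hq.comp (h₁.comp continuous_fst))
  · exact (continuous_snd.comp continuous_snd).add (hq.comp (h₂.comp continuous_fst))

lemma T_iterate (φ₁ φ₂ : ℤ_[2] → ℝ) (n : ℕ) (z : ℤ_[2]) (a b : UnitAddCircle) :
    (T φ₁ φ₂)^[n] (z, a, b) =
      (z + n, a + ((∑ j ∈ Finset.range n, φ₁ (z + j) : ℝ) : UnitAddCircle),
        b + ((∑ j ∈ Finset.range n, φ₂ (z + j) : ℝ) : UnitAddCircle)) := by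
  induction n with
  | zero => simp
  | succ n ih =>
    rw [Function.iterate_succ_apply', ih]
    unfold T
    simp only [Finset.sum_range_succ, Nat.cast_add, Nat.cast_one, AddCircle.coe_add]
    refine Prod.ext ?_ (Prod.ext ?_ ?_) <;> simp only <;> abel

lemma isDistal_T (φ₁ φ₂ : ℤ_[2] → ℝ) : IsDistal (T φ₁ φ₂) := by
  rintro ⟨z, a, b⟩ ⟨z', a', b'⟩ hne
  by_cases hz : z = z'
  · subst hz
    have hd : 0 < dist ((a, b) : UnitAddCircle × UnitAddCircle) (a', b') := by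
      rw [dist_pos]
      intro h
      exact hne (by rw [h])
    refine lt_of_lt_of_le hd (le_ciInf fun n => ?_)
    rw [T_iterate, T_iterate, Prod.dist_eq, Prod.dist_eq, Prod.dist_eq]
    simp only [dist_self, dist_add_right]
    exact le_max_right _ _
  · have hd : 0 < dist z z' := dist_pos.2 hz
    refine lt_of_lt_of_le hd (le_ciInf fun n => ?_)
    rw [T_iterate, T_iterate, Prod.dist_eq]
    simp only [dist_add_right]
    exact le_max_left _ _

/-- The observable `M (cos 2πa + i cos 2πb)`. -/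
noncomputable def F (M : ℝ) (x : X) : ℂ :=
  (M : ℂ) * (((fourier 1 x.2.1 : ℂ).re : ℂ) + ((fourier 1 x.2.2 : ℂ).re : ℂ) * Complex.I)

lemma continuous_F (M : ℝ) : Continuous (F M) := by
  unfold F
  have h : Continuous (fun a : UnitAddCircle => ((fourier 1 a : ℂ).re : ℂ)) :=
    Complex.continuous_ofReal.comp (Complex.continuous_re.comp (fourier 1).continuous)
  refine continuous_const.mul ?_
  exact (h.comp (continuous_fst.comp continuous_snd)).add
    ((h.comp (continuous_snd.comp continuous_snd)).mul continuous_const)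

lemma re_fourier_coe (t : ℝ) : (fourier 1 (t : UnitAddCircle) : ℂ).re = Real.cos (2 * Real.pi * t) := by
  rw [fourier_coe_apply]
  have : (2 * (Real.pi : ℂ) * Complex.I * ((1 : ℤ) : ℂ) * (t : ℂ) / ((1 : ℝ) : ℂ))
      = ((2 * Real.pi * t : ℝ) : ℂ) * Complex.I := by
    push_cast
    ring
  rw [this, Complex.exp_ofReal_mul_I_re]

lemma coe_add_int (t : ℝ) (m : ℤ) : ((t + m : ℝ) : UnitAddCircle) = (t : UnitAddCircle) := by
  rw [AddCircle.coe_add]
  have : ((m : ℝ) : UnitAddCircle) = 0 := by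
    rw [AddCircle.coe_eq_zero_iff]
    exact ⟨m, by simp⟩
  rw [this, add_zero]

/-- The set of squares. -/
def squares : Set ℕ+ := {n | ∃ m : ℕ+, n = m ^ 2}

lemma squares_interpolation : IsDistalInterpolationSet squares := by
  classical
  rintro f ⟨C, hC⟩
  -- extend `f` along `m ↦ m²`
  let g : ℕ → ℂ := fun m => if h : 0 < m then f ⟨(⟨m, h⟩ : ℕ+) ^ 2, ⟨_, rfl⟩⟩ else 0
  set M : ℝ := max C 1 with hM
  have hMpos : 0 < M := lt_of_lt_of_le one_pos (le_max_right _ _)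
  have hg : ∀ m, ‖g m‖ ≤ M := by
    intro m
    by_cases h : 0 < m
    · simp only [g, dif_pos h]
      exact (hC _).trans (le_max_left _ _)
    · simp only [g, dif_neg h, norm_zero]
      exact hMpos.le
  have hre : ∀ m, |(g m).re / M| ≤ 1 := by
    intro m
    rw [abs_div, abs_of_pos hMpos, div_le_one hMpos]
    exact (Complex.abs_re_le_norm _).trans (hg m)
  have him : ∀ m, |(g m).im / M| ≤ 1 := by
    intro m
    rw [abs_div, abs_of_pos hMpos, div_le_one hMpos]
    exact (Complex.abs_im_le_norm _).trans (hg m)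
  let Θ₁ : ℕ → ℝ := fun m => Real.arccos ((g m).re / M) / (2 * Real.pi)
  let Θ₂ : ℕ → ℝ := fun m => Real.arccos ((g m).im / M) / (2 * Real.pi)
  let φ₁ := phi (fun i => Θ₁ (i + 1) - Θ₁ i) (Θ₁ 1)
  let φ₂ := phi (fun i => Θ₂ (i + 1) - Θ₂ i) (Θ₂ 1)
  refine ⟨fun n => F M ((T φ₁ φ₂)^[(n : ℕ)] (0, 0, 0)),
    ⟨X, inferInstance, inferInstance, T φ₁ φ₂, (0, 0, 0), F M,
      continuous_T (continuous_phi _ _) (continuous_phi _ _), isDistal_T _ _, continuous_F M,
      fun n => rfl⟩, ?_⟩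
  rintro ⟨n, m, rfl⟩
  have hm : 1 ≤ (m : ℕ) := m.pos
  obtain ⟨m₁, h₁⟩ := birkhoff Θ₁ m hm
  obtain ⟨m₂, h₂⟩ := birkhoff Θ₂ m hm
  have hgm : g m = f ⟨m ^ 2, ⟨m, rfl⟩⟩ := by
    simp only [g, dif_pos m.pos]
    congr
  have hpi : (2 * Real.pi) ≠ 0 := by positivity
  simp only [T_iterate, zero_add, PNat.pow_coe]
  have e₁ : ((∑ j ∈ Finset.range ((m : ℕ) ^ 2), φ₁ (j : ℤ_[2]) : ℝ) : UnitAddCircle)
      = (Θ₁ m : UnitAddCircle) := by
    rw [← coe_add_int (Θ₁ m) m₁, ← h₁]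
  have e₂ : ((∑ j ∈ Finset.range ((m : ℕ) ^ 2), φ₂ (j : ℤ_[2]) : ℝ) : UnitAddCircle)
      = (Θ₂ m : UnitAddCircle) := by
    rw [← coe_add_int (Θ₂ m) m₂, ← h₂]
  rw [e₁, e₂]
  unfold F
  simp only
  rw [re_fourier_coe, re_fourier_coe]
  have c₁ : Real.cos (2 * Real.pi * Θ₁ m) = (g m).re / M := by
    have : 2 * Real.pi * Θ₁ m = Real.arccos ((g m).re / M) := by
      simp only [Θ₁]; field_simp
    rw [this, Real.cos_arccos (abs_le.1 (hre m)).1 (abs_le.1 (hre m)).2]
  have c₂ : Real.cos (2 * Real.pi * Θ₂ m) = (g m).im / M := by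
    have : 2 * Real.pi * Θ₂ m = Real.arccos ((g m).im / M) := by
      simp only [Θ₂]; field_simp
    rw [this, Real.cos_arccos (abs_le.1 (him m)).1 (abs_le.1 (him m)).2]
  rw [c₁, c₂, ← hgm]
  have hMne : (M : ℂ) ≠ 0 := by exact_mod_cast hMpos.ne'
  push_cast
  rw [mul_add, mul_div_cancel₀ _ hMne, ← mul_assoc, mul_div_cancel₀ _ hMne]
  exact Complex.re_add_im (g m)

lemma squares_sublacunary : IsSublacunary squares := by
  refine ⟨fun n => (Nat.succPNat n) ^ 2, ?_, ?_, ?_⟩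
  · intro a b hab
    show (Nat.succPNat a) ^ 2 < (Nat.succPNat b) ^ 2
    rw [← PNat.coe_lt_coe, PNat.pow_coe, PNat.pow_coe, Nat.succPNat_coe, Nat.succPNat_coe]
    exact Nat.pow_lt_pow_left (Nat.succ_lt_succ hab) (by norm_num)
  · ext n
    constructor
    · rintro ⟨m, rfl⟩
      exact ⟨_, rfl⟩
    · rintro ⟨m, rfl⟩
      refine ⟨m.natPred, ?_⟩
      show (Nat.succPNat m.natPred) ^ 2 = m ^ 2
      rw [PNat.succPNat_natPred]
  · have h1 : Tendsto (fun n : ℕ => Real.log ((n : ℝ) + 1) / ((n : ℝ) + 1)) atTop (𝓝 0) := by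
      have h := Real.tendsto_pow_log_div_mul_add_atTop 1 0 1 one_ne_zero
      simp only [pow_one, one_mul, add_zero] at h
      have h' : Tendsto (fun n : ℕ => (n : ℝ) + 1) atTop atTop :=
        tendsto_atTop_add_const_right _ _ tendsto_natCast_atTop_atTop
      exact h.comp h'
    have h2 := h1.const_mul 2
    rw [mul_zero] at h2
    refine h2.congr fun n => ?_
    have hc : (((Nat.succPNat n ^ 2 : ℕ+) : ℕ) : ℝ) = ((n : ℝ) + 1) ^ 2 := by
      rw [PNat.pow_coe, Nat.succPNat_coe]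
      push_cast
      ring
    rw [hc, Real.log_pow]
    push_cast
    ring

/-- **There is a sublacunary set which is an interpolation set for distal sequences.** -/
theorem result : ∃ E : Set ℕ+, IsSublacunary E ∧ IsDistalInterpolationSet E :=
  ⟨squares, squares_sublacunary, squares_interpolation⟩

end Pool.Agent.Results.MP_924486_an.DistalSquares
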